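import Pool.Agent.P.MP_2fa38d_an.NA.AllB

set_option autoImplicit false

namespace Pool.Agent.Results.MP_2fa38d_an.Blocks

open Pool.Agent.P.MP_2fa38d_an

theorem result :
  ∀ (ρ : ℂ → ℝ), ρ = (fun z : ℂ => |z.im| + Real.log (1 + ‖z‖ ^ 2)) →
  ∀ (E : (ℂ → ℂ) → Prop),
    E = (fun f : ℂ → ℂ => Differentiable ℂ f ∧
      ∃ A > (0:ℝ), ∃ B > (0:ℝ), ∀ z : ℂ, ‖f z‖ ≤ A * Real.exp (B * ρ z)) →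
  ∀ F : ℂ → ℂ, E F → (∃ z, F z ≠ 0) →
    ∃ R : ℕ → ℝ, R 0 = 0 ∧ StrictMono R ∧ Filter.Tendsto R Filter.atTop Filter.atTop ∧
      Filter.Tendsto (fun k => R (k + 1) / R k) Filter.atTop (nhds 1) ∧
      ∀ (a : ℕ → ℂ) (p : ℕ → ℕ), (∀ n, ∀ κ < p n, iteratedDeriv κ F (a n) = 0) →
      ∀ lam : ℕ → ℕ → ℂ,
        (∃ g : ℂ → ℂ, E g ∧ ∀ n, ∀ κ < p n,
          iteratedDeriv κ g (a n) / (κ.factorial : ℂ) = lam n κ) ↔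
        ∃ A > (0:ℝ), ∃ B > (0:ℝ), ∀ k, ∃ g : ℂ → ℂ,
          AnalyticOnNhd ℂ g {z : ℂ | R k ≤ ‖z‖ ∧ ‖z‖ ≤ R (k + 1)} ∧
          (∀ z : ℂ, R k ≤ ‖z‖ → ‖z‖ ≤ R (k + 1) → ‖g z‖ ≤ A * Real.exp (B * ρ z)) ∧
          ∀ n, R k ≤ ‖a n‖ → ‖a n‖ ≤ R (k + 1) → ∀ κ < p n,
            iteratedDeriv κ g (a n) / (κ.factorial : ℂ) = lam n κ := by
  intro ρ hρ E hE F hF hF0
  obtain rfl : ρ = rho := hρ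
  obtain rfl : E = EE := hE
  obtain ⟨R, h0, h1, h2, h3, h4⟩ := NA.a_BLOCKS F hF hF0
  refine ⟨R, h0, h1, h2, h3, fun a p hV lam => ⟨?_, h4 a p hV lam⟩⟩
  rintro ⟨g, ⟨hg, A, hA, B, hB, hb⟩, hj⟩
  exact ⟨A, hA, B, hB, fun k => ⟨g, fun z _ => hg.analyticAt z, fun z _ _ => hb z,
    fun n _ _ => hj n⟩⟩

end Pool.Agent.Results.MP_2fa38d_an.Blocks
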