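import Pool.Agent.P.MP_2fa38d_an.Interp

set_option autoImplicit false

namespace Pool.Agent.Results.MP_2fa38d_an.Completion

open Pool.Agent.P.MP_2fa38d_an

theorem result :
  ∀ (ρ : ℂ → ℝ), ρ = (fun z : ℂ => |z.im| + Real.log (1 + ‖z‖ ^ 2)) →
  ∀ (E : (ℂ → ℂ) → Prop),
    E = (fun f : ℂ → ℂ => Differentiable ℂ f ∧
      ∃ A > (0:ℝ), ∃ B > (0:ℝ), ∀ z : ℂ, ‖f z‖ ≤ A * Real.exp (B * ρ z)) →
  ∀ (a : ℕ → ℂ) (p : ℕ → ℕ),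
    (∀ n, 1 ≤ p n) →
    (∀ lam : ℕ → ℕ → ℂ, (∀ n κ, lam n κ = 0 ∨ lam n κ = 1) →
      ∃ g : ℂ → ℂ, E g ∧ ∀ n, ∀ κ < p n,
        iteratedDeriv κ g (a n) / (κ.factorial : ℂ) = lam n κ) →
    ∃ f : ℂ → ℂ, E f ∧ (∃ z, f z ≠ 0) ∧
      (∀ n, ∀ k < p n, iteratedDeriv k f (a n) = 0) ∧
      (∃ ε > (0:ℝ), ∃ c > (0:ℝ),
        (∀ n, ε * Real.exp (-(c * ρ (a n))) ≤
          ‖iteratedDeriv (p n) f (a n)‖ / ((p n).factorial : ℝ)) ∧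
        (∀ w, f w = 0 → w ∉ Set.range a → ε * Real.exp (-(c * ρ w)) ≤ ‖deriv f w‖) ∧
        (∀ z, ∃ w, ‖w - z‖ ≤ 2 ∧ ε * Real.exp (-(c * ρ z)) ≤ ‖f w‖)) ∧
      (∀ g : ℂ → ℂ, E g →
        ((∃ h : ℂ → ℂ, E h ∧ ∀ z, g z = f z * h z) ↔
          (∀ n, ∀ k < p n, iteratedDeriv k g (a n) = 0) ∧ ∀ w, f w = 0 → g w = 0)) ∧
      (∀ (lam : ℕ → ℕ → ℂ) (μ : ℂ → ℂ),
        (∃ A > (0:ℝ), ∃ B > (0:ℝ),
          (∀ n, ∀ κ < p n, ‖lam n κ‖ ≤ A * Real.exp (B * ρ (a n))) ∧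
          ∀ w, f w = 0 → w ∉ Set.range a → ‖μ w‖ ≤ A * Real.exp (B * ρ w)) →
        ∃ g : ℂ → ℂ, E g ∧
          (∀ n, ∀ κ < p n, iteratedDeriv κ g (a n) / (κ.factorial : ℂ) = lam n κ) ∧
          ∀ w, f w = 0 → w ∉ Set.range a → g w = μ w) := by
  intro ρ hρ E hE a p hp H
  obtain rfl : ρ = rho := hρ
  obtain rfl : E = EE := hE
  obtain ⟨N0, hS⟩ := HB.sj (a := a) (p := p) H
  obtain ⟨N1, hI⟩ := hS.ip hp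
  obtain ⟨f, M, hc⟩ := hI.core hp
  obtain ⟨ε, hε, c, hc0, hl⟩ := lower_of_om M
  refine ⟨f, hc.bd.ee, ?_, fun n => (van_iff (hc.bd.1.analyticAt _)).1 (hc.van n),
    ⟨ε, hε, c, hc0, fun n => (hl _).trans (hc.two n),
      fun w hw hwa => (hl _).trans (hc.simple w hw hwa), fun z => ?_⟩,
    fun g hg => ⟨?_, fun h => ?_⟩, fun lam μ h => ?_⟩
  · obtain ⟨w, -, hw⟩ := hc.slow 0
    exact ⟨w, norm_pos_iff.1 ((inv_om_pow_pos _ _).trans_le hw)⟩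
  · obtain ⟨w, h1, h2⟩ := hc.slow z
    exact ⟨w, h1, (hl _).trans h2⟩
  · rintro ⟨h, hh, hgh⟩
    refine ⟨fun n => (van_iff (hg.1.analyticAt _)).1 ?_, fun w hw => by rw [hgh, hw, zero_mul]⟩
    exact ((hc.van n).mul_cont hh.1.continuous.continuousAt).congr' (fun z => (hgh z).symm)
  · obtain ⟨N, hN⟩ := hg.bd
    obtain ⟨h, hh, hgh⟩ := hc.div hN (fun n => (van_iff (hg.1.analyticAt _)).2 (h.1 n)) h.2
    exact ⟨h, hh.ee, hgh⟩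
  · obtain ⟨A, -, B, -, h1, h2⟩ := h
    obtain ⟨N, hN⟩ := exp_le_om A B
    exact hc.interp hS hp N lam μ (fun n κ hκ => (h1 n κ hκ).trans (hN _))
      (fun w hw hwa => (h2 w hw hwa).trans (hN _))

end Pool.Agent.Results.MP_2fa38d_an.Completion
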