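import Pool.Agent.P.MP_2fa38d_an.NA.AllC

set_option autoImplicit false

namespace Pool.Agent.Results.MP_2fa38d_an.NoAbel

open Pool.Agent.P.MP_2fa38d_an

theorem result :
  ∀ φ : ℝ → ℂ, MeasureTheory.Integrable φ → (∃ b : ℝ, ∀ t, b < |t| → φ t = 0) →
    ¬ φ =ᵐ[MeasureTheory.volume] 0 →
  ∀ F : ℂ → ℂ, F = (fun z : ℂ => ∫ t : ℝ, φ t * Complex.exp (-(Complex.I * z * t))) →
    ∃ (R : ℕ → ℝ) (Λ : ℕ → Finset ℂ), 0 < R 0 ∧ StrictMono R ∧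
      Filter.Tendsto R Filter.atTop Filter.atTop ∧
      Filter.Tendsto (fun k => R (k + 1) / R k) Filter.atTop (nhds 1) ∧
      (∀ k (z : ℂ), ‖z‖ = R k → F z ≠ 0) ∧ (∀ k l, l ∈ Λ k ↔ ‖l‖ < R k ∧ F l = 0) ∧
      ∀ f : ℝ → ℂ, Continuous f → (∀ x : ℝ, ∫ t : ℝ, φ t * f (x - t) = 0) →
        ∃ P : ℂ → Polynomial ℂ, (∀ l, (P l).degree < (analyticOrderNatAt F l : ℕ)) ∧
          ∀ S : ℕ → ℝ → ℂ, S = (fun (k : ℕ) (x : ℝ) =>
            ∑ l ∈ Λ k, (P l).eval (x : ℂ) * Complex.exp (Complex.I * l * x)) →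
          (∀ (k : ℕ) (x : ℝ), S k x = (2 * (Real.pi : ℂ))⁻¹ * ∮ z in C(0, R k),
            Complex.exp (Complex.I * z * x) *
              (∫ r : ℝ, φ r * Complex.exp (-(Complex.I * z * r)) *
                ∫ u in (0:ℝ)..(-r), f u * Complex.exp (-(Complex.I * z * u))) / F z) ∧
          (∀ A L : ℝ, A < L → TendstoUniformlyOn
            (fun (k : ℕ) (x : ℝ) => S k x - ∫ t in (-L)..L,
              f t * ((Real.sin (R k * (x - t)) / (Real.pi * (x - t)) : ℝ) : ℂ))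
            (fun _ => 0) Filter.atTop (Set.Icc (-A) A)) ∧
          ∀ m : ℕ, ContDiff ℝ (m + 1 : ℕ) f → ∀ A : ℝ, TendstoUniformlyOn
            (fun k : ℕ => iteratedDeriv m (S k)) (iteratedDeriv m f) Filter.atTop
            (Set.Icc (-A) A) := by
  intro φ hφ hb hne F hF
  obtain rfl : F = NA.ft φ := hF
  obtain ⟨R, Λ, h0, h1, h2, h3, h4, h5, h6⟩ := NA.a_NOABEL2 φ hφ hb hne
  refine ⟨R, Λ, h0, h1, h2, h3, h4, h5, fun f hf hA => ?_⟩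
  obtain ⟨P, hP, h7, h8, h9⟩ := h6 f hf hA
  refine ⟨P, hP, ?_⟩
  rintro S rfl
  refine ⟨fun k x => ?_, h8, h9⟩
  have := h7 k x
  simp only [NA.SS, NA.NN, NA.EI, zero_sub] at this
  exact this

end Pool.Agent.Results.MP_2fa38d_an.NoAbel
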