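import Pool.Agent.P.MP_2fa38d_an.NB.Fin

set_option autoImplicit false

namespace Pool.Agent.Results.MP_2fa38d_an.NoBasis

open Pool.Agent.P.MP_2fa38d_an

theorem result :
  ∃ μ : ℝ → ℂ, Continuous μ ∧ (∃ b : ℝ, ∀ t, b < |t| → μ t = 0) ∧
    ∀ W : Set (ℝ → ℂ),
      W = {f | ContDiff ℝ (⊤ : ℕ∞) f ∧ ∀ x : ℝ, ∫ t : ℝ, μ t * f (x - t) = 0} →
      ¬ FiniteDimensional ℂ (Submodule.span ℂ W) ∧
      ¬ ∃ e : ℕ → ℝ → ℂ, (∀ j, e j ∈ W) ∧ ∀ f ∈ W, ∃! c : ℕ → ℂ, ∀ (m : ℕ) (A : ℝ),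
        TendstoUniformlyOn
          (fun N : ℕ => iteratedDeriv m (fun x : ℝ => ∑ j ∈ Finset.range N, c j * e j x))
          (iteratedDeriv m f) Filter.atTop (Set.Icc (-A) A) := by
  obtain ⟨μ, h, h1, h2⟩ := NB.no_basis
  refine ⟨μ, h.cont, let ⟨s, _, _, h⟩ := h; ⟨s, h.supp⟩, fun W hW => ?_⟩
  obtain rfl : W = NB.Ker h := hW
  refine ⟨by rwa [Submodule.span_eq], fun ⟨e, he, H⟩ => ?_⟩
  have hW : ∀ f ∈ NB.Ker h, _ := fun f hf => hf.1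
  obtain ⟨p, hp⟩ := NB.ex_sn hW
  exact h2 p hp (fun j => ⟨e j, he j⟩) fun f =>
    (existsUnique_congr fun c => hp.cv_iff hW _ c f).2 (H f.1 f.2)

end Pool.Agent.Results.MP_2fa38d_an.NoBasis
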